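import Pool.Agent.R161.Az.Defs

set_option autoImplicit false

/-! AZ-CMP: comparison of two products over integers and the final limit (MP_315d97_co). -/

namespace Pool.Agent.R152.Az

open Finset Filter Topology Pool.Agent.R161.Az

/-! ### CMP -/

lemma sum_range_le (N : ℕ) :
    ∑ x ∈ range (N + 1), 1 / ((x : ℝ) + 1) ^ 2 ≤ 5 / 3 - 1 / ((N : ℝ) + 3 / 2) := by
  induction N with
  | zero => norm_num
  | succ N ih =>
    rw [sum_range_succ]
    have h : 1 / (((N + 1 : ℕ) : ℝ) + 1) ^ 2 ≤ 1 / ((N : ℝ) + 3 / 2) - 1 / (((N + 1 : ℕ) : ℝ) + 3 / 2) := by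
      push_cast
      rw [div_sub_div _ _ (by positivity) (by positivity), div_le_div_iff₀ (by positivity) (by positivity)]
      nlinarith
    linarith

lemma sum_le (S : Finset ℕ) : ∑ x ∈ S, 1 / ((x : ℝ) + 1) ^ 2 ≤ 5 / 3 := by
  obtain ⟨N, hN⟩ : ∃ N : ℕ, S ⊆ range (N + 1) := by
    refine ⟨S.sup id, fun x hx => ?_⟩
    rw [mem_range]
    exact Nat.lt_succ_of_le (Finset.le_sup (f := id) hx)
  calc ∑ x ∈ S, 1 / ((x : ℝ) + 1) ^ 2 ≤ ∑ x ∈ range (N + 1), 1 / ((x : ℝ) + 1) ^ 2 :=
        sum_le_sum_of_subset_of_nonneg hN fun _ _ _ => by positivity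
    _ ≤ 5 / 3 - 1 / ((N : ℝ) + 3 / 2) := sum_range_le N
    _ ≤ 5 / 3 := by
      have : (0 : ℝ) ≤ 1 / ((N : ℝ) + 3 / 2) := by positivity
      linarith

lemma sum_sq_le (S : Finset ℕ) (a : ℕ) (ha : a ∉ S) :
    ∑ m ∈ S, 1 / ((m : ℝ) - a) ^ 2 ≤ 10 / 3 := by
  rw [← Finset.sum_filter_add_sum_filter_not S (fun m => m < a)]
  have h1 : ∑ m ∈ S.filter (fun m => m < a), 1 / ((m : ℝ) - a) ^ 2 ≤ 5 / 3 := by
    refine le_trans (le_of_eq ?_) (sum_le ((S.filter (fun m => m < a)).image (fun m => a - m - 1)))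
    rw [Finset.sum_image]
    · refine sum_congr rfl fun m hm => ?_
      have hm' := (mem_filter.1 hm).2
      have : ((a - m - 1 : ℕ) : ℝ) + 1 = (a : ℝ) - m := by
        rw [Nat.cast_sub (by omega), Nat.cast_sub hm'.le]; push_cast; ring
      rw [this]
      congr 1; ring
    · intro x hx y hy hxy
      have hx' := (mem_filter.1 (mem_coe.1 hx)).2
      have hy' := (mem_filter.1 (mem_coe.1 hy)).2
      simp only at hxy
      omega
  have h2 : ∑ m ∈ S.filter (fun m => ¬ m < a), 1 / ((m : ℝ) - a) ^ 2 ≤ 5 / 3 := by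
    refine le_trans (le_of_eq ?_) (sum_le ((S.filter (fun m => ¬ m < a)).image (fun m => m - a - 1)))
    have hne : ∀ m ∈ S.filter (fun m => ¬ m < a), a < m := by
      intro m hm
      have h := mem_filter.1 hm
      have : m ≠ a := fun e => ha (e ▸ h.1)
      omega
    rw [Finset.sum_image]
    · refine sum_congr rfl fun m hm => ?_
      have hm' := hne m hm
      have : ((m - a - 1 : ℕ) : ℝ) + 1 = (m : ℝ) - a := by
        rw [Nat.cast_sub (by omega), Nat.cast_sub hm'.le]; push_cast; ring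
      rw [this]
    · intro x hx y hy hxy
      have hx' := hne x (mem_coe.1 hx)
      have hy' := hne y (mem_coe.1 hy)
      simp only at hxy
      omega
  linarith

lemma one_sub_sum_le {ι : Type*} [DecidableEq ι] (s : Finset ι) (x : ι → ℝ)
    (h0 : ∀ i ∈ s, 0 ≤ x i) (h1 : ∀ i ∈ s, x i ≤ 1) :
    1 - ∑ i ∈ s, x i ≤ ∏ i ∈ s, (1 - x i) ∧ ∏ i ∈ s, (1 - x i) ≤ 1 := by
  induction s using Finset.induction_on with
  | empty => simp
  | insert a s ha ih =>
    rw [sum_insert ha, prod_insert ha]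
    have h0' := h0 a (mem_insert_self a s)
    have h1' := h1 a (mem_insert_self a s)
    obtain ⟨i1, i2⟩ := ih (fun i hi => h0 i (mem_insert_of_mem hi)) (fun i hi => h1 i (mem_insert_of_mem hi))
    have hp : 0 ≤ ∏ i ∈ s, (1 - x i) := prod_nonneg fun i hi => by
      linarith [h1 i (mem_insert_of_mem hi)]
    constructor
    · nlinarith
    · nlinarith

lemma int_sq (a b : ℕ) (h : a ≠ b) : (1 : ℝ) ≤ ((b : ℝ) - a) ^ 2 := by
  have h1 : (1 : ℤ) ≤ ((b : ℤ) - a) ^ 2 := by
    have : ((b : ℤ) - a) ≠ 0 := by omega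
    have := sq_pos_of_ne_zero this
    omega
  exact_mod_cast h1

lemma factor_nonneg (a b : ℕ) :
    (0 : ℝ) ≤ (2 * ((b : ℝ) - a)) ^ 2 * ((2 * ((b : ℝ) - a)) ^ 2 - 1) := by
  by_cases h : a = b
  · subst h; simp
  · have := int_sq a b h
    apply mul_nonneg (sq_nonneg _)
    nlinarith

lemma sixteen_pow (n : ℕ) :
    (16 : ℝ) ^ (n * (n - 1) / 2) = ∏ i : Fin n, ∏ _j ∈ Ioi i, (16 : ℝ) := by
  have : n * (n - 1) / 2 = ∑ i : Fin n, (Ioi i).card := by
    simp only [Fin.card_Ioi]
    rw [Fin.sum_univ_eq_sum_range (fun i => n - 1 - i) n, Finset.sum_range_reflect (fun i => i) n,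
      Finset.sum_range_id]
  rw [this, ← Finset.prod_pow_eq_pow_sum]
  refine prod_congr rfl fun i _ => ?_
  rw [prod_const]

theorem s_cmp : S_cmp := by
  intro n k
  have hprod : (16 : ℝ) ^ (n * (n - 1) / 2) * Vd n k ^ 2 =
      ∏ i : Fin n, ∏ j ∈ Ioi i, (16 * (((k j : ℝ) - k i) ^ 2) ^ 2) := by
    rw [sixteen_pow, Vd, ← Finset.prod_pow, ← Finset.prod_mul_distrib]
    refine prod_congr rfl fun i _ => ?_
    rw [← Finset.prod_pow, ← Finset.prod_mul_distrib]
  refine ⟨?_, ?_, ?_⟩
  · rw [hprod, Vp]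
    refine prod_le_prod (fun i _ => prod_nonneg fun j _ => factor_nonneg _ _) fun i _ => ?_
    refine prod_le_prod (fun j _ => factor_nonneg _ _) fun j _ => ?_
    nlinarith [sq_nonneg ((k j : ℝ) - k i)]
  · by_cases hk : Function.Injective k
    · have h6 : (6 : ℝ) ^ n = ∏ _i : Fin n, (6 : ℝ) := by simp
      rw [hprod, Vp, h6, ← Finset.prod_mul_distrib]
      refine prod_le_prod (fun i _ => prod_nonneg fun j _ => by positivity) fun i _ => ?_
      have hne : ∀ j ∈ Ioi i, k i ≠ k j := fun j hj e => (mem_Ioi.1 hj).ne (hk e)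
      have hfac : ∏ j ∈ Ioi i, ((2 * ((k j : ℝ) - k i)) ^ 2 * ((2 * ((k j : ℝ) - k i)) ^ 2 - 1)) =
          (∏ j ∈ Ioi i, (16 * (((k j : ℝ) - k i) ^ 2) ^ 2)) *
            ∏ j ∈ Ioi i, (1 - 1 / 4 * (1 / ((k j : ℝ) - k i) ^ 2)) := by
        rw [← Finset.prod_mul_distrib]
        refine prod_congr rfl fun j hj => ?_
        have := int_sq _ _ (hne j hj)
        have hd : ((k j : ℝ) - k i) ≠ 0 := by
          intro h0; rw [h0] at this; norm_num at this
        field_simp
        ring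
      have hlow : 1 / 6 ≤ ∏ j ∈ Ioi i, (1 - 1 / 4 * (1 / ((k j : ℝ) - k i) ^ 2)) := by
        have h := (one_sub_sum_le (Ioi i) (fun j => 1 / 4 * (1 / ((k j : ℝ) - k i) ^ 2))
          (fun j _ => by positivity) (fun j hj => by
            have := int_sq _ _ (hne j hj)
            have h2 : 1 / ((k j : ℝ) - k i) ^ 2 ≤ 1 := by
              rw [div_le_one (by linarith)]; exact this
            linarith)).1
        rw [← Finset.mul_sum] at h
        have hs : ∑ j ∈ Ioi i, 1 / ((k j : ℝ) - k i) ^ 2 ≤ 10 / 3 := by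
          have h3 := sum_sq_le ((Ioi i).image k) (k i) (by
            intro hm
            obtain ⟨j, hj, e⟩ := mem_image.1 hm
            exact hne j hj e.symm)
          rwa [Finset.sum_image (fun x _ y _ e => hk e)] at h3
        linarith
      rw [hfac]
      have hp : 0 ≤ ∏ j ∈ Ioi i, (16 * (((k j : ℝ) - k i) ^ 2) ^ 2) := prod_nonneg fun j _ => by positivity
      nlinarith
    · -- both sides vanish
      have : ∃ i j : Fin n, i < j ∧ k i = k j := by
        simp only [Function.Injective] at hk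
        push Not at hk
        obtain ⟨i, j, e, hne⟩ := hk
        rcases lt_or_gt_of_ne hne with h | h
        · exact ⟨i, j, h, e⟩
        · exact ⟨j, i, h, e.symm⟩
      obtain ⟨i, j, hij, e⟩ := this
      have h0 : (16 : ℝ) ^ (n * (n - 1) / 2) * Vd n k ^ 2 = 0 := by
        rw [hprod]
        apply prod_eq_zero (mem_univ i)
        apply prod_eq_zero (mem_Ioi.2 hij)
        rw [e]; ring
      have h1 : 0 ≤ Vp n k := prod_nonneg fun i _ => prod_nonneg fun j _ => factor_nonneg _ _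
      rw [h0]; positivity
  · exact prod_nonneg fun i _ => prod_nonneg fun j _ => factor_nonneg _ _

/-! ### LIM -/

lemma lim_aux (a : ℕ → ℝ) (C : ℝ) (hC : 1 ≤ C)
    (h : ∀ n : ℕ, 1 ≤ n → (2 : ℝ) ^ (n ^ 2) / (C * n) ^ (C * n) ≤ a n ∧
      a n ≤ (2 : ℝ) ^ (n ^ 2) * (C * n) ^ (C * n)) (x : ℕ → ℝ) (hx0 : ∀ n, 0 ≤ x n)
    (hx : ∀ n : ℕ, 1 ≤ n → x n ≤ 1 / (2 * (n : ℝ) ^ 2))
    (hlim : Tendsto (fun n : ℕ => x n * (n : ℝ) ^ 2) atTop (𝓝 (1 / 2))) :
    Tendsto (fun n : ℕ => a n ^ x n) atTop (𝓝 √2) := by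
  have hCn : Tendsto (fun n : ℕ => C * (n : ℝ)) atTop atTop :=
    Tendsto.const_mul_atTop (by linarith) tendsto_natCast_atTop_atTop
  have hlog : Tendsto (fun n : ℕ => C ^ 2 / 2 * (Real.log (C * n) / (C * n))) atTop (𝓝 0) := by
    have h1 := (Real.tendsto_pow_log_div_mul_add_atTop 1 0 1 one_ne_zero).comp hCn
    have h2 := h1.const_mul (C ^ 2 / 2)
    rw [mul_zero] at h2
    refine h2.congr fun n => ?_
    simp
  -- the error term
  have herr : Tendsto (fun n : ℕ => x n * (Real.log (a n) - (n : ℝ) ^ 2 * Real.log 2)) atTop (𝓝 0) := by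
    refine squeeze_zero_norm' ?_ hlog
    filter_upwards [eventually_ge_atTop 1] with n hn
    obtain ⟨hl, hu⟩ := h n hn
    have hn' : (1 : ℝ) ≤ n := by exact_mod_cast hn
    have hCn1 : 1 ≤ C * (n : ℝ) := by nlinarith
    have hP : (0 : ℝ) < (C * n) ^ (C * n) := Real.rpow_pos_of_pos (by linarith) _
    have h2 : (0 : ℝ) < (2 : ℝ) ^ (n ^ 2) := by positivity
    have ha : 0 < a n := lt_of_lt_of_le (div_pos h2 hP) hl
    have hlu : Real.log (a n) ≤ (n : ℝ) ^ 2 * Real.log 2 + C * n * Real.log (C * n) := by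
      have := Real.log_le_log ha hu
      rw [Real.log_mul h2.ne' hP.ne', Real.log_pow, Real.log_rpow (by linarith)] at this
      push_cast at this
      exact this
    have hll : (n : ℝ) ^ 2 * Real.log 2 - C * n * Real.log (C * n) ≤ Real.log (a n) := by
      have := Real.log_le_log (div_pos h2 hP) hl
      rw [Real.log_div h2.ne' hP.ne', Real.log_pow, Real.log_rpow (by linarith)] at this
      push_cast at this
      exact this
    rw [Real.norm_eq_abs, abs_mul, abs_of_nonneg (hx0 n)]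
    have hLn : 0 ≤ Real.log (C * n) := Real.log_nonneg hCn1
    have habs : |Real.log (a n) - (n : ℝ) ^ 2 * Real.log 2| ≤ C * n * Real.log (C * n) := by
      rw [abs_le]; constructor <;> linarith
    calc x n * |Real.log (a n) - (n : ℝ) ^ 2 * Real.log 2|
        ≤ 1 / (2 * (n : ℝ) ^ 2) * (C * n * Real.log (C * n)) :=
          mul_le_mul (hx n hn) habs (abs_nonneg _) (by positivity)
      _ = C ^ 2 / 2 * (Real.log (C * n) / (C * n)) := by
          have hC0 : C ≠ 0 := by linarith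
          have hn0 : (n : ℝ) ≠ 0 := by linarith
          field_simp
  have hsum : Tendsto (fun n : ℕ => x n * Real.log (a n)) atTop (𝓝 (1 / 2 * Real.log 2)) := by
    have h3 := herr.add (hlim.mul_const (Real.log 2))
    rw [zero_add] at h3
    refine h3.congr fun n => ?_
    ring
  have hexp := (Real.continuous_exp.tendsto _).comp hsum
  have hval : Real.exp (1 / 2 * Real.log 2) = √2 := by
    rw [Real.sqrt_eq_rpow, Real.rpow_def_of_pos (by norm_num)]
    ring_nf
  rw [hval] at hexp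
  refine hexp.congr' ?_
  filter_upwards [eventually_ge_atTop 1] with n hn
  obtain ⟨hl, hu⟩ := h n hn
  have hn' : (1 : ℝ) ≤ n := by exact_mod_cast hn
  have hP : (0 : ℝ) < (C * n) ^ (C * n) := Real.rpow_pos_of_pos (by nlinarith) _
  have ha : 0 < a n := lt_of_lt_of_le (div_pos (by positivity) hP) hl
  simp only [Function.comp]
  rw [Real.rpow_def_of_pos ha, mul_comm]

theorem s_lim : S_lim := by
  intro a ⟨C, hC, h⟩
  constructor
  · refine lim_aux a C hC h _ (fun n => by positivity) (fun n hn => ?_) ?_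
    · have hn' : (1 : ℝ) ≤ n := by exact_mod_cast hn
      rw [div_le_div_iff₀ (by positivity) (by positivity)]
      nlinarith
    · refine tendsto_const_nhds.congr' ?_
      filter_upwards [eventually_ge_atTop 1] with n hn
      have hn' : (n : ℝ) ≠ 0 := by
        have : (1 : ℝ) ≤ n := by exact_mod_cast hn
        linarith
      field_simp
  · refine lim_aux a C hC h _ (fun n => by positivity) (fun n hn => ?_) ?_
    · have hn' : (1 : ℝ) ≤ n := by exact_mod_cast hn
      rw [div_le_div_iff₀ (by positivity) (by positivity)]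
      nlinarith
    · have h1 : Tendsto (fun n : ℕ => 1 / 2 * (1 - 1 / (2 * (n : ℝ) + 1)) ^ 2) atTop (𝓝 (1 / 2 * (1 - 0) ^ 2)) := by
        refine Tendsto.const_mul _ (Tendsto.pow (Tendsto.sub tendsto_const_nhds ?_) 2)
        refine Tendsto.div_atTop tendsto_const_nhds ?_
        exact tendsto_atTop_add_const_right _ _
          (Tendsto.const_mul_atTop (by norm_num) tendsto_natCast_atTop_atTop)
      have h2 : (1 : ℝ) / 2 * (1 - 0) ^ 2 = 1 / 2 := by norm_num
      rw [h2] at h1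
      refine h1.congr fun n => ?_
      have : (2 * (n : ℝ) + 1) ≠ 0 := by positivity
      field_simp
      ring

end Pool.Agent.R152.Az
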